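import Pool.Agent.Helper68.ES.M_LCX
import Pool.Agent.Helper68.ES.M_FMS
import Pool.Agent.Helper68.ES.M_PX1
import Pool.Agent.Helper68.ES.M_FAS
import Pool.Agent.Helper68.ES.M_LOS
import Pool.Agent.Helper1.ES.M_TNU
import Pool.Agent.Helper15.ES.M_DRT
import Pool.Agent.Helper15.ES.M_PXH
import Pool.Agent.Helper15.ES.M_SPA
import Pool.Agent.Helper16.ES.M_DRM
import Pool.Agent.Helper16.ES.M_SUP
import Pool.Agent.Helper17.RG.M_FIN
import Pool.Agent.Helper19.ES.M_ATL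
import Pool.Agent.Helper2.ES.M_LVB
import Pool.Agent.Helper2.ES.M_MAI
import Pool.Agent.Helper2.ES.M_PLM
import Pool.Agent.Helper2.ES.M_TON
import Pool.Agent.Helper20.RG.Asm
import Pool.Agent.Helper20.RL.Asm
import Pool.Agent.Helper21.ES.M_DRI
import Pool.Agent.Helper21.ES.M_TRW
import Pool.Agent.Helper29.EP.M_GPG
import Pool.Agent.Helper29.ES.M_MKV
import Pool.Agent.Helper34.ES.M_CHX
import Pool.Agent.Helper37.ES.M_CMB
import Pool.Agent.Helper37.ES.M_DRB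
import Pool.Agent.Helper37.ES.M_DRC
import Pool.Agent.Helper39.ES.M_PX2
import Pool.Agent.Helper40.ES.M_TWC
import Pool.Agent.Helper47.ES.M_TWE
import Pool.Agent.Helper48.ES.M_JCN
import Pool.Agent.Helper51.ES.M_GDC
import Pool.Agent.Helper51.ES.M_TWD
import Pool.Agent.Helper52.EP.M_CPP
import Pool.Agent.Helper57.ES.M_TWB
import Pool.Agent.Helper6.ES.M_LVL
import Pool.Agent.Helper6.ES.M_TWA
import Pool.Agent.Helper60.ES.M_AGE
import Pool.Agent.Helper60.ES.M_OUT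
import Pool.Agent.Helper62.ES.M_PIG
import Pool.Agent.Helper67.ES.M_TAA
import Pool.Agent.Helper68.EP.Asm
import Pool.Agent.Helper7.ES.M_DRS
import Pool.Agent.Helper72.ES.M_PAI
import Pool.Agent.Helper78.ES.M_TWN
import Pool.Agent.Helper79.ES.M_EGS
import Pool.Agent.Helper79.ES.M_FAT
import Pool.Agent.Helper8.ES.M_TYP
import Pool.Agent.Helper80.ES.M_JCL
import Pool.Agent.Helper81.ES.M_OII
import Pool.Agent.Helper82.ES.M_FUS
import Pool.Agent.Helper82.ES.M_KPF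
import Pool.Agent.Helper82.ES.M_LVA
import Pool.Agent.Helper84.ES.M_INR
import Pool.Agent.Helper85.ES.Asm
import Pool.Agent.Helper90.ES.M_LOW
import Pool.Agent.Helper90.ES.M_SUR
import Pool.Agent.Helper94.ES.M_TRU
import Pool.Agent.Helper96.ES.M_PX3
import Pool.Agent.Helper98.ES.M_LAY
import Pool.Agent.Helper99.ES.M_DYS

/-!
# Project ES (MP_cb927e_an): assembly; the theorem for `p = (√13 - 1) / 2` (`pES_FZS`)
-/

set_option autoImplicit false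

namespace Pool.Agent.Helper20.ESA

theorem pES_EGS : Pool.Agent.Helper68.ES.StEGS :=
  Pool.Agent.Helper79.ES.hEGS Pool.Agent.Helper68.EP.pEFB

theorem pES_PXH : Pool.Agent.Helper68.ES.StPXH :=
  Pool.Agent.Helper15.ES.hPXH Pool.Agent.Helper20.RL.pLGR Pool.Agent.Helper20.RL.pLFM Pool.Agent.Helper20.RL.pLGE

theorem pES_TRW : Pool.Agent.Helper68.ES.StTRW :=
  Pool.Agent.Helper21.ES.hTRW Pool.Agent.Helper29.ES.hMKV pES_EGS pES_PXH Pool.Agent.Helper45.EPL.hLSQ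

theorem pES_PX1 : Pool.Agent.Helper68.ES.StPX1 :=
  Pool.Agent.Helper68.ES.PX1m.hPX1 Pool.Agent.Helper20.RG.pPT Pool.Agent.Helper20.RL.pLGR Pool.Agent.Helper68.EP.pEFB Pool.Agent.Helper68.EP.pECR Pool.Agent.Helper68.EP.pXW

theorem pES_PX2 : Pool.Agent.Helper68.ES.StPX2 :=
  Pool.Agent.Helper39.ES.hPX2 Pool.Agent.Helper29.ES.hMKV pES_EGS pES_PXH pES_PX1

theorem pES_PX3 : Pool.Agent.Helper68.ES.StPX3 :=
  Pool.Agent.Helper96.ES.hPX3 pES_PX2 Pool.Agent.Helper45.EPL.hLSQ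

theorem pES_FUS : Pool.Agent.Helper68.ES.StFUS :=
  Pool.Agent.Helper82.ES.hFUS Pool.Agent.Helper20.RG.pMM Pool.Agent.Helper29.EP.hGPG Pool.Agent.Helper99.ES.hDYS

theorem pES_CHX : Pool.Agent.Helper68.ES.StCHX :=
  Pool.Agent.Helper34.ES.hCHX Pool.Agent.Helper20.RG.pPT Pool.Agent.Helper20.RL.pLGR Pool.Agent.Helper20.RL.pLFM Pool.Agent.Helper20.RL.pLGE Pool.Agent.Helper68.EP.pEFB

theorem pES_SUP : Pool.Agent.Helper68.ES.StSUP :=
  Pool.Agent.Helper16.ES.hSUP Pool.Agent.Helper68.EP.pEFB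

theorem pES_KPF : Pool.Agent.Helper68.ES.StKPF :=
  Pool.Agent.Helper82.ES.hKPF Pool.Agent.Helper68.EP.pEFB

theorem pES_SUR : Pool.Agent.Helper68.ES.StSUR :=
  Pool.Agent.Helper90.ES.hSUR Pool.Agent.Helper20.RG.pPT Pool.Agent.Helper20.RL.pLGR Pool.Agent.Helper68.EP.pEQ Pool.Agent.Helper68.EP.pEFB

theorem pES_AGE : Pool.Agent.Helper68.ES.StAGE :=
  Pool.Agent.Helper60.ES.hAGE Pool.Agent.Helper68.EP.pEFB pES_KPF pES_SUR

theorem pES_PLM : Pool.Agent.Helper68.ES.StPLM :=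
  Pool.Agent.Helper2.ES.hPLM Pool.Agent.Helper20.RL.pLGR Pool.Agent.Helper20.RL.pLFM Pool.Agent.Helper68.EP.pEFB

theorem pES_DRI : Pool.Agent.Helper68.ES.StDRI :=
  Pool.Agent.Helper21.ES.hDRI Pool.Agent.Helper20.RG.pPT Pool.Agent.Helper20.RL.pLGR Pool.Agent.Helper20.RL.pLFM Pool.Agent.Helper20.RL.pLER

theorem pES_DRB : Pool.Agent.Helper68.ES.StDRB :=
  Pool.Agent.Helper37.ES.hDRB Pool.Agent.Helper68.EP.pEQ Pool.Agent.Helper68.EP.pXW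

theorem pES_DRM : Pool.Agent.Helper68.ES.StDRM :=
  Pool.Agent.Helper16.ES.hDRM Pool.Agent.Helper20.RG.pPT

theorem pES_DRS : Pool.Agent.Helper68.ES.StDRS :=
  Pool.Agent.Helper7.ES.hDRS Pool.Agent.Helper20.RG.pPT Pool.Agent.Helper20.RG.pRDS pES_DRI pES_DRB pES_DRM

theorem pES_DRT : Pool.Agent.Helper68.ES.StDRT :=
  Pool.Agent.Helper15.ES.hDRT pES_DRS

theorem pES_DRC : Pool.Agent.Helper68.ES.StDRC :=
  Pool.Agent.Helper37.ES.hDRC pES_DRI pES_DRB pES_DRT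

theorem pES_TAA : Pool.Agent.Helper68.ES.StTAA :=
  Pool.Agent.Helper67.ES.hTAA Pool.Agent.Helper68.EP.pEFB pES_KPF pES_SUP pES_AGE pES_PLM pES_DRC

theorem pES_TON : Pool.Agent.Helper68.ES.StTON :=
  Pool.Agent.Helper2.ES.hTON pES_SUP pES_TAA Pool.Agent.Helper1.ES.hTNU

theorem pES_TRU : Pool.Agent.Helper68.ES.StTRU :=
  Pool.Agent.Helper94.ES.hTRU pES_SUP pES_TON

theorem pES_LAY : Pool.Agent.Helper68.ES.StLAY :=
  Pool.Agent.Helper98.ES.hLAY Pool.Agent.Helper20.RL.pLGR Pool.Agent.Helper68.EP.pEQ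

theorem pES_OUT : Pool.Agent.Helper68.ES.StOUT :=
  Pool.Agent.Helper60.ES.hOUT Pool.Agent.Helper68.EP.pEQ Pool.Agent.Helper20.RL.pLGR

theorem pES_FAT : Pool.Agent.Helper68.ES.StFAT :=
  Pool.Agent.Helper79.ES.hFAT Pool.Agent.Helper20.RG.pPT Pool.Agent.Helper20.RL.pLGR Pool.Agent.Helper68.EP.pEQ

theorem pES_LOW : Pool.Agent.Helper68.ES.StLOW :=
  Pool.Agent.Helper90.ES.hLOW Pool.Agent.Helper20.RL.pLGR Pool.Agent.Helper68.EP.pEQ pES_DRB pES_FAT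

theorem pES_SPA : Pool.Agent.Helper68.ES.StSPA :=
  Pool.Agent.Helper15.ES.hSPA Pool.Agent.Helper20.RL.pLGR Pool.Agent.Helper68.EP.pEQ Pool.Agent.Helper68.EP.pEFB pES_KPF pES_SUP pES_AGE pES_PLM pES_DRC pES_LAY

theorem pES_TWA : Pool.Agent.Helper68.ES.StTWA :=
  Pool.Agent.Helper6.ES.hTWA pES_SPA

theorem pES_TWB : Pool.Agent.Helper68.ES.StTWB :=
  Pool.Agent.Helper57.ES.hTWB Pool.Agent.Helper68.EP.pEQ Pool.Agent.Helper68.EP.pEFB pES_KPF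

theorem pES_INR : Pool.Agent.Helper68.ES.StINR :=
  Pool.Agent.Helper84.ES.hINR pES_DRI pES_DRT pES_LAY

theorem pES_TWC : Pool.Agent.Helper68.ES.StTWC :=
  Pool.Agent.Helper40.ES.hTWC Pool.Agent.Helper68.EP.pEFB pES_SUP pES_INR pES_LAY

theorem pES_TWE : Pool.Agent.Helper68.ES.StTWE :=
  Pool.Agent.Helper47.ES.hTWE Pool.Agent.Helper20.RL.pLGR Pool.Agent.Helper68.EP.pEQ pES_LAY pES_DRB

theorem pES_TWD : Pool.Agent.Helper68.ES.StTWD :=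
  Pool.Agent.Helper51.ES.hTWD Pool.Agent.Helper68.EP.pEQ Pool.Agent.Helper68.EP.pEFB pES_KPF pES_SUP pES_AGE pES_PLM pES_DRB pES_DRT pES_LAY pES_OUT pES_LOW pES_TWA pES_TWB pES_TWC pES_TWE

theorem pES_PAI : Pool.Agent.Helper68.ES.StPAI :=
  Pool.Agent.Helper72.ES.hPAI pES_SUP pES_TWD Pool.Agent.Helper78.ES.hTWN

theorem pES_LVL : Pool.Agent.Helper68.ES.StLVL :=
  Pool.Agent.Helper6.ES.hLVL Pool.Agent.Helper82.ES.hLVA Pool.Agent.Helper2.ES.hLVB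

theorem pES_MAI : Pool.Agent.Helper68.ES.StMAI :=
  Pool.Agent.Helper2.ES.hMAI pES_CHX pES_TRU pES_SUP pES_PAI pES_LVL

theorem pES_ATL : Pool.Agent.Helper68.ES.StATL :=
  Pool.Agent.Helper19.ES.hATL Pool.Agent.Helper99.ES.hDYS

theorem pES_GDC : Pool.Agent.Helper68.ES.StGDC :=
  Pool.Agent.Helper51.ES.hGDC Pool.Agent.Helper68.EP.pEFB Pool.Agent.Helper68.EP.pXW Pool.Agent.Helper80.ES.hJCL Pool.Agent.Helper37.ES.hCMB pES_ATL

theorem pES_TYP : Pool.Agent.Helper68.ES.StTYP :=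
  Pool.Agent.Helper8.ES.hTYP Pool.Agent.Helper29.ES.hMKV Pool.Agent.Helper80.ES.hJCL Pool.Agent.Helper48.ES.hJCN pES_FUS pES_MAI pES_GDC Pool.Agent.Helper45.EPL.hLSQ

theorem pES_OII : Pool.Agent.Helper68.ES.StOII :=
  Pool.Agent.Helper81.ES.hOII pES_TRW pES_PX3 pES_TYP Pool.Agent.Helper62.ES.hPIG

theorem pES_LCX : Pool.Agent.Helper68.ES.StLCX :=
  Pool.Agent.Helper68.ES.LCXm.hLCX Pool.Agent.Helper20.RG.pYB Pool.Agent.Helper68.EP.pEFB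

theorem pES_LOS : Pool.Agent.Helper68.ES.StLOS :=
  Pool.Agent.Helper68.ES.LOSm.hLOS Pool.Agent.Helper29.EP.hGPG Pool.Agent.Helper68.EP.pSY Pool.Agent.Helper20.RG.pSYS Pool.Agent.Helper85.ES.pOI pES_OII pES_LCX Pool.Agent.Helper68.EP.pLGO Pool.Agent.Helper68.EP.pLX2 Pool.Agent.Helper68.EP.pLX3 Pool.Agent.Helper68.EP.pLDM

theorem pES_FAS : Pool.Agent.Helper68.ES.StFAS :=
  Pool.Agent.Helper68.ES.FASm.hFAS Pool.Agent.Helper20.RG.pYB Pool.Agent.Helper68.EP.pXHI pES_LOS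

theorem pES_FMS : Pool.Agent.Helper68.ES.StFMS :=
  Pool.Agent.Helper68.ES.FMSm.hFMS Pool.Agent.Helper20.RG.pPT pES_FAS

theorem pES_FZS : Pool.Agent.Helper68.ES.StFZS :=
  Pool.Agent.Helper68.ES.FMSm.hFZS Pool.Agent.Helper20.RG.pPT Pool.Agent.Helper20.RG.pCOV Pool.Agent.Helper52.EP.hCPP pES_FMS Pool.Agent.Helper20.RG.pRES Pool.Agent.Helper17.RG.hFIN

end Pool.Agent.Helper20.ESA
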